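import Mathlib
import Pool.Agent.H24.Spd5

open Pool.Agent.H24.Spd

/-- The first-move self-regulating pushdown families form a strict infinite hierarchy. -/
theorem Pool.Agent.Results.MP_e3bf5d_lc.Yes.result : ∀ n : ℕ,
    (∀ σ : Type, FSPDA n σ ⊆ FSPDA (n + 1) σ) ∧
      FSPDA n (Fin (2 * n + 4)) ⊂ FSPDA (n + 1) (Fin (2 * n + 4)) :=
  main
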